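import Pool.Agent.BED.Stmts
import Pool.Agent.Helper70_BE01.Fnl

/-!
# Squad BED, module FN3: the theorem for symmetric functions (after `Helper70_BE01/Fnl2.lean`)
-/

namespace Pool.Agent.BED.H81

open Set Filter Topology MeasureTheory
open scoped InnerProductSpace ENNReal
open Pool.Agent.BE01 Pool.Agent.Helper70BE01Fnl

set_option autoImplicit false

noncomputable section

/-- FN3. -/
theorem fn3 (WV3 : Wv3Stmt) (FRK : FrkStmt) (KSC : KscStmt) (KGA : KgaStmt) (PSK : PskStmt)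
    (KIS : KisStmt) : Fn3Stmt := by
  intro d Ω Gs p K a l B φ hd hDom hGs hp ha hφ hinv hEig hsimple hB hK hnr
  obtain ⟨X, iX1, iX2, iX3, A, W, Z, hPtw, hKin, hcomp, hDir⟩ := WV3 d Ω hd hDom
  obtain ⟨KK, hKc, hKm⟩ := KGA d Ω Gs hDom hGs
  have hPst : Pst A KK := PSK d Ω Gs X A KK hDom hGs hPtw hKc hKm
  have hSK : ∀ h ∈ KK, W.S h ∈ KK := fun h hh =>
    (hKm _).2 (KIS d Ω Gs W.S Z hDom hGs hDir h ((hKm h).1 hh))
  have hφK : φ ∈ KK := (hKm φ).2 hinv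
  obtain ⟨hle, hlift, hmul, hone, -, -, -⟩ := hPtw
  obtain ⟨hH10, hZ, hZψ, hEigS, -⟩ := hDir
  have hconv : ∀ (x : X) (C : ℝ), 0 ≤ C → (∀ᵐ z ∂(mu Ω), |A.e x z| ≤ C) → ‖x‖ ≤ C := by
    intro x C hC hx
    obtain ⟨x', h1, h2⟩ := hlift (A.e x) C hC hx
    have h3 : x' = x := A.i_inj (A.j_inj h1)
    rw [← h3]
    exact h2
  have hφS : φ = l • W.S φ := (hEigS l φ).1 hEig
  have hsymm : ∀ h k, ⟪W.S h, k⟫_ℝ = ⟪h, W.S k⟫_ℝ := by
    intro h k
    rw [← W.prp.RR h, ← W.prp.RR k, W.prp.R_symm, W.prp.R_symm]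
  have hφn : 0 < ‖φ‖ := norm_pos_iff.2 hφ
  have hl : 0 < l := by
    have h1 : ‖φ‖ ^ 2 = l * ‖Z φ‖ ^ 2 := by
      rw [hZ, ← real_inner_smul_right, ← hφS, real_inner_self_eq_norm_sq]
    have h2 : 0 < l * ‖Z φ‖ ^ 2 := by rw [← h1]; positivity
    by_contra hneg
    have : l * ‖Z φ‖ ^ 2 ≤ 0 := mul_nonpos_of_nonpos_of_nonneg (not_lt.1 hneg) (sq_nonneg _)
    linarith
  set ω : ℝ := Real.sqrt l with hωdef
  have hω : 0 < ω := Real.sqrt_pos.2 hl
  have hω2 : ω ^ 2 = l := Real.sq_sqrt hl.le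
  have hSφ : (ω ^ 2) • W.S φ = φ := by rw [hω2]; exact hφS.symm
  have hex : A.e (W.SX ((ω ^ 2) • φ)) = φ := by
    rw [W.e_SX, map_smul, hSφ]
  set x0 := W.SX ((ω ^ 2) • φ) with hx0
  have hpow : ∀ (x : X) (n : ℕ), A.e (x ^ n) =ᵐ[mu Ω] fun z => (A.e x z) ^ n := by
    intro x n
    induction n with
    | zero =>
      rw [pow_zero]
      filter_upwards [hone] with z hz
      rw [hz, pow_zero]
    | succ n ih =>
      rw [pow_succ]
      filter_upwards [ih, hmul (x ^ n) x] with z h1 h2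
      rw [h2, h1, pow_succ]
  have hγ : 0 < ⟪A.e (x0 ^ (2 * p + 1)), φ⟫_ℝ := by
    rw [L2.inner_def]
    have h1 : ∀ᵐ z ∂(mu Ω), ⟪A.e (x0 ^ (2 * p + 1)) z, φ z⟫_ℝ = φ z ^ (2 * (p + 1)) := by
      filter_upwards [hpow x0 (2 * p + 1)] with z hz
      rw [hz, hex]
      simp only [RCLike.inner_apply, conj_trivial]
      ring
    have hnn : 0 ≤ᵐ[mu Ω] fun z => ⟪A.e (x0 ^ (2 * p + 1)) z, φ z⟫_ℝ := by
      filter_upwards [h1] with z hz
      rw [hz]
      simp only [Pi.zero_apply]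
      rw [pow_mul]
      positivity
    have hint := L2.integrable_inner (𝕜 := ℝ) (A.e (x0 ^ (2 * p + 1))) φ
    refine lt_of_le_of_ne (integral_nonneg_of_ae hnn) (fun h0 => hφ ?_)
    have h2 := (integral_eq_zero_iff_of_nonneg_ae hnn hint).1 h0.symm
    rw [Lp.eq_zero_iff_ae_eq_zero]
    filter_upwards [h1, h2] with z hz hz2
    rw [hz] at hz2
    simp only [Pi.zero_apply] at hz2 ⊢
    exact pow_eq_zero_iff (by omega) |>.1 hz2
  have hI1 : ⟪φ, φ⟫_ℝ = ∫ x, φ x ^ 2 ∂(mu Ω) := by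
    rw [L2.inner_def]
    refine integral_congr_ae (Eventually.of_forall fun x => ?_)
    simp only [real_inner_self_eq_norm_sq, Real.norm_eq_abs, sq_abs]
  have hI1p : 0 < ⟪φ, φ⟫_ℝ := real_inner_self_pos.2 hφ
  have hI2 : ⟪A.e (x0 ^ (2 * p + 1)), φ⟫_ℝ = ∫ x, φ x ^ (2 * p + 2) ∂(mu Ω) := by
    rw [L2.inner_def]
    refine integral_congr_ae ?_
    filter_upwards [hpow x0 (2 * p + 1)] with z hz
    rw [hz, hex]
    simp only [RCLike.inner_apply, conj_trivial]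
    ring
  have hB0 : 0 ≤ B := by
    by_contra hneg
    refine hφ ?_
    rw [Lp.eq_zero_iff_ae_eq_zero]
    filter_upwards [hB] with z hz
    exact absurd ((abs_nonneg _).trans hz) hneg
  have hnB : ‖x0‖ ≤ B := by
    refine hconv x0 B hB0 ?_
    rw [hex]
    exact hB
  have hkap : (2 * p + 1) * ‖x0‖ ^ (2 * p) <
      K * (p * cp p * (⟪A.e (x0 ^ (2 * p + 1)), φ⟫_ℝ / ⟪φ, φ⟫_ℝ)) := by
    have h1 : (2 * p + 1) * ‖x0‖ ^ (2 * p) ≤ (2 * p + 1) * B ^ (2 * p) := by gcongr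
    refine lt_of_le_of_lt h1 ?_
    rw [← hI1, ← hI2] at hK
    have h2 : K * (p * cp p * (⟪A.e (x0 ^ (2 * p + 1)), φ⟫_ℝ / ⟪φ, φ⟫_ℝ)) =
        K * (p * cp p * ⟪A.e (x0 ^ (2 * p + 1)), φ⟫_ℝ) / ⟪φ, φ⟫_ℝ := by
      ring
    rw [h2, lt_div_iff₀ hI1p]
    exact hK
  have hK1 : 1 ≤ K := by
    rcases Nat.eq_zero_or_pos K with h0 | h0
    · exfalso
      rw [h0, Nat.cast_zero, zero_mul] at hkap
      have : 0 ≤ (2 * p + 1) * ‖x0‖ ^ (2 * p) := by positivity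
      linarith
    · exact h0
  have hslv : SlvK W.S KK ω φ (1 + 2 * p * K) := by
    refine ⟨?_, ?_⟩
    · rw [hω2]
      exact (FRK _ W.S KK l hcomp hsymm hKc hSK).2 φ hφK hφ hφS
        (fun u hu hu2 => hsimple u ((hKm u).1 hu) ((hEigS l u).2 hu2))
    · intro n hn h3 hM
      rw [hω2]
      exact (FRK _ W.S KK ((n : ℝ) ^ 2 * l) hcomp hsymm hKc hSK).1
        (fun u hu hu2 => hnr n hn h3 hM u ((hKm u).1 hu) ((hEigS _ u).2 hu2))
  obtain ⟨t0, c, C, u, x, k, w, h, ht0, hc, hwc, hhc, H⟩ :=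
    KSC X (Lp ℝ 4 (mu Ω)) (Lp ℝ 2 (mu Ω)) A W KK p a ω φ K hPst hKin hSK hφK hp ha hω hφ hSφ hγ
      hK1 hkap hslv
  have hs : ∀ t : ℝ, 0 ≤ t → t0 < t + (t0 + 1) := fun t ht => by linarith
  refine ⟨fun t => u (t + (t0 + 1)), fun t => A.e (x (t + (t0 + 1))), fun t => w (t + (t0 + 1)),
    fun t => Z (h (t + (t0 + 1))), ?_, ?_⟩
  · refine ⟨?_, ?_, ?_, ?_, ?_, ?_, ?_, ?_⟩
    · intro t ht
      obtain ⟨-, -, -, hu, -, -, -⟩ := H _ (hs t ht)
      show (u (t + (t0 + 1)), Z (h (t + (t0 + 1)))) ∈ H10 Ω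
      rw [hu]
      exact hH10 _
    · intro t ht
      obtain ⟨-, -, hx, -, -, -, -⟩ := H _ (hs t ht)
      refine ⟨Z (k (t + (t0 + 1))), ?_⟩
      show (A.e (x (t + (t0 + 1))), Z (k (t + (t0 + 1)))) ∈ H10 Ω
      rw [hx, W.e_SX]
      exact hH10 _
    · intro t ht
      obtain ⟨hu, -, -, -, -, -, -⟩ := H _ (hs t ht)
      exact hu.comp_add_const t (t0 + 1)
    · intro t ht
      obtain ⟨-, hv, -, -, -, -, -⟩ := H _ (hs t ht)
      exact hv.comp_add_const t (t0 + 1)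
    · refine Z.continuous.comp_continuousOn (hhc.comp (by fun_prop) ?_)
      intro t ht
      exact hs t ht
    · refine hwc.comp (by fun_prop) ?_
      intro t ht
      exact hs t ht
    · intro t ht
      refine ⟨‖x (t + (t0 + 1))‖, ?_⟩
      exact hle _
    · intro t ht ψ hψ
      obtain ⟨-, -, -, -, heq, -, -⟩ := H _ (hs t ht)
      set s := t + (t0 + 1) with hsdef
      have h1 : ∀ᵐ z ∂(mu Ω), a * |A.e (x s) z| ^ ((2 * p : ℕ) : ℝ) * A.e (x s) z * ψ z =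
          a * (A.e (x s ^ (2 * p + 1)) z * ψ z) := by
        filter_upwards [hpow (x s) (2 * p + 1)] with z hz
        rw [hz, Real.rpow_natCast, pow_mul, sq_abs, ← pow_mul]
        ring
      have h2 : ∀ᵐ z ∂(mu Ω), w s z * ψ z + h s z * ψ z + a * (A.e (x s ^ (2 * p + 1)) z * ψ z) =
          0 := by
        have h3 : (w s + h s + a • A.e (x s ^ (2 * p + 1)) : Lp ℝ 2 (mu Ω)) =ᵐ[mu Ω] 0 := by
          rw [heq]
          exact Lp.coeFn_zero _ _ _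
        filter_upwards [h3, Lp.coeFn_add (w s + h s) (a • A.e (x s ^ (2 * p + 1))),
          Lp.coeFn_add (w s) (h s), Lp.coeFn_smul a (A.e (x s ^ (2 * p + 1)))] with z h4 h5 h6 h7
        rw [h5] at h4
        simp only [Pi.add_apply, Pi.zero_apply] at h4
        rw [h6, h7] at h4
        simp only [Pi.add_apply, Pi.smul_apply, smul_eq_mul] at h4
        have h8 := congrArg (fun r => r * ψ z) h4
        simp only [zero_mul] at h8
        linarith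
      have i1 := int_mul (w s) hψ
      have i2 := int_mul (h s) hψ
      have i3 := int_inner (Z (h s)) hψ
      have i4 := (int_mul (A.e (x s ^ (2 * p + 1))) hψ).const_mul a
      have e1 : ∫ z, w s z * ψ z + ⟪Z (h s) z, gradient ψ z⟫_ℝ +
          a * |A.e (x s) z| ^ ((2 * p : ℕ) : ℝ) * A.e (x s) z * ψ z ∂(mu Ω) =
          ∫ z, (w s z * ψ z + ⟪Z (h s) z, gradient ψ z⟫_ℝ) +
            a * (A.e (x s ^ (2 * p + 1)) z * ψ z) ∂(mu Ω) := by
        refine integral_congr_ae ?_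
        filter_upwards [h1] with z hz
        rw [hz]
      have e2 : ∫ z, (w s z * ψ z + h s z * ψ z) + a * (A.e (x s ^ (2 * p + 1)) z * ψ z) ∂(mu Ω) =
          0 := by
        rw [integral_congr_ae (g := fun _ => (0 : ℝ)) h2]
        simp
      rw [int3 i1 i2 i4] at e2
      show ∫ z, w s z * ψ z + ⟪Z (h s) z, gradient ψ z⟫_ℝ +
          a * |A.e (x s) z| ^ ((2 * p : ℕ) : ℝ) * A.e (x s) z * ψ z ∂(mu Ω) = 0
      rw [e1, int3 i1 i3 i4, hZψ (h s) ψ hψ]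
      exact e2
  · have hexp : (-(2 / ((2 * p : ℕ) : ℝ))) = -(1 / (p : ℝ)) := by
      have : (p : ℝ) ≠ 0 := by positivity
      push_cast
      field_simp
    have hC : 0 < C := by
      obtain ⟨-, -, -, -, -, h1, h2⟩ := H (t0 + 1) (by linarith)
      have h3 : 0 < (t0 + 1) ^ (-(1 / (p : ℝ))) := Real.rpow_pos_of_pos (by linarith) _
      have h4 : c * (t0 + 1) ^ (-(1 / (p : ℝ))) ≤ C * (t0 + 1) ^ (-(1 / (p : ℝ))) := h1.trans h2
      have h5 := le_of_mul_le_mul_right h4 h3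
      linarith
    refine ⟨c * (t0 + 1) ^ (-(1 / (p : ℝ))), C, mul_pos hc (Real.rpow_pos_of_pos (by linarith) _),
      fun t ht => ?_⟩
    obtain ⟨-, -, -, -, -, h1, h2⟩ := H _ (hs t ht)
    rw [hexp, energy_eq]
    show _ ≤ ‖A.e (x (t + (t0 + 1)))‖ ^ 2 + ‖Z (h (t + (t0 + 1)))‖ ^ 2 ∧
      ‖A.e (x (t + (t0 + 1)))‖ ^ 2 + ‖Z (h (t + (t0 + 1)))‖ ^ 2 ≤ _
    rw [hZ]
    have hneg : -(1 / (p : ℝ)) ≤ 0 := by
      have : 0 ≤ 1 / (p : ℝ) := by positivity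
      linarith
    constructor
    · refine le_trans ?_ h1
      rw [mul_assoc, ← Real.mul_rpow (by linarith) (by linarith)]
      refine mul_le_mul_of_nonneg_left ?_ hc.le
      refine Real.rpow_le_rpow_of_nonpos (by linarith) ?_ hneg
      nlinarith
    · refine h2.trans ?_
      refine mul_le_mul_of_nonneg_left ?_ hC.le
      exact Real.rpow_le_rpow_of_nonpos (by linarith) (by linarith) hneg

end

end Pool.Agent.BED.H81
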